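import Mathlib
import Pool.Agent.J4.H93.SR.Link

/-!
# MP_e739cf_an: the constant of the second order term is the hexagonal value up to `10⁻⁷`
-/

set_option autoImplicit false

open MeasureTheory

namespace Pool.Agent.Results.MP_e739cf_an.SecondOrderConstant

/-- For `0 < s < 2` the minimal Riesz `s`-energy of `N` points on `S²` is
`C(s) N² + c N^(1+s/2) + o(N^(1+s/2))`, `C(s) = 2^(1-s)/(2-s)`, and the constant `c` is equal to the value
`H = 6 (8√3π)^(-s/2) ζ(s/2) (ζ(s/2,1/3) - ζ(s/2,2/3))` given by the hexagonal lattice up to an error less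
than `10⁻⁷`; more precisely `H - e ≤ c ≤ H` with
`e = 10⁻⁸ (4π)^(-s/2) (π^(s/2)/Γ(s/2+1) + (7/2) s (2/√3)^(-s/2-1)) ≤ 10⁻⁷`. -/
theorem result (s : ℝ) (hs : 0 < s) (hs2 : s < 2) :
    ∃ z l : ℝ, riemannZeta (((s / 2 : ℝ)) : ℂ) = (z : ℂ) ∧
      HurwitzZeta.hurwitzZeta ((1 / 3 : ℝ) : UnitAddCircle) (((s / 2 : ℝ)) : ℂ) -
        HurwitzZeta.hurwitzZeta ((2 / 3 : ℝ) : UnitAddCircle) (((s / 2 : ℝ)) : ℂ) = (l : ℂ) ∧
    ∃ c : ℝ, Filter.Tendsto
        (fun N : ℕ =>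
          (sInf {e : ℝ | ∃ x : Fin N → Metric.sphere (0 : EuclideanSpace ℝ (Fin 3)) 1,
              Function.Injective x ∧
              e = ∑ i, ∑ j ∈ Finset.univ.erase i,
                ‖((x i : EuclideanSpace ℝ (Fin 3)) - (x j : EuclideanSpace ℝ (Fin 3)))‖ ^ (-s)}
            - 2 ^ (1 - s) / (2 - s) * (N : ℝ) ^ 2) / (N : ℝ) ^ (1 + s / 2))
        Filter.atTop (nhds c) ∧
      c ≤ 6 * (8 * Real.sqrt 3 * Real.pi) ^ (-(s / 2)) * z * l ∧
      6 * (8 * Real.sqrt 3 * Real.pi) ^ (-(s / 2)) * z * l -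
        (4 * Real.pi) ^ (-(s / 2)) * (10 ^ (-8 : ℤ) * (Real.pi ^ (s / 2) / Real.Gamma (s / 2 + 1) +
          7 * (s / 2) * (2 / Real.sqrt 3) ^ (-(s / 2) - 1))) ≤ c ∧
      (4 * Real.pi) ^ (-(s / 2)) * (10 ^ (-8 : ℤ) * (Real.pi ^ (s / 2) / Real.Gamma (s / 2 + 1) +
          7 * (s / 2) * (2 / Real.sqrt 3) ^ (-(s / 2) - 1))) ≤ 10 ^ (-7 : ℤ) := by
  obtain ⟨c, hc, hlim⟩ := Pool.Agent.Helper88.SE.main2 2 (by norm_num) s hs (by exact_mod_cast hs2)
  have hF : ∀ N : ℕ, Pool.Agent.Helper88.SE.F 2 s N =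
      sInf {e : ℝ | ∃ x : Fin N → Metric.sphere (0 : EuclideanSpace ℝ (Fin 3)) 1,
              Function.Injective x ∧
              e = ∑ i, ∑ j ∈ Finset.univ.erase i,
                ‖((x i : EuclideanSpace ℝ (Fin 3)) - (x j : EuclideanSpace ℝ (Fin 3)))‖ ^ (-s)}
            - 2 ^ (1 - s) / (2 - s) * (N : ℝ) ^ 2 := by
    intro N
    have hset : {e : ℝ | ∃ x : Fin N → Pool.Agent.Helper88.SE.S 2, Function.Injective x ∧
        e = Pool.Agent.Helper88.SE.En s x} =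
        {e : ℝ | ∃ x : Fin N → Metric.sphere (0 : EuclideanSpace ℝ (Fin 3)) 1,
              Function.Injective x ∧
              e = ∑ i, ∑ j ∈ Finset.univ.erase i,
                ‖((x i : EuclideanSpace ℝ (Fin 3)) - (x j : EuclideanSpace ℝ (Fin 3)))‖ ^ (-s)} := by
      ext e
      constructor
      · rintro ⟨x, hx, rfl⟩
        exact ⟨x, hx, Pool.Agent.Helper88.SE.En_eq s hs x⟩
      · rintro ⟨x, hx, rfl⟩
        exact ⟨x, hx, (Pool.Agent.Helper88.SE.En_eq s hs x).symm⟩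
    unfold Pool.Agent.Helper88.SE.F Pool.Agent.Helper88.SE.Em
    rw [hset, Pool.Agent.Helper88.SE.Ic2 s hs hs2]
    ring
  have hlim2 : Filter.Tendsto (fun N : ℕ => Pool.Agent.Helper88.SE.F 2 s N /
      (N : ℝ) ^ (1 + s / 2)) Filter.atTop (nhds c) := by
    have := hlim
    push_cast at this
    exact this
  obtain ⟨z, l, hz, hl, hup, hlow⟩ := Pool.Agent.J4.H93.SR.two_sided s hs hs2 c hlim2
  refine ⟨z, l, hz, hl, c, ?_, hup, hlow, Pool.Agent.J4.H93.SR.eS_le hs hs2⟩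
  refine hlim2.congr fun N => ?_
  rw [hF N]

end Pool.Agent.Results.MP_e739cf_an.SecondOrderConstant
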